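import Pool.Agent.W500.FL.Stm

/-!
# Project FL (owner helper500), part STA: the first stage of the construction
-/

set_option autoImplicit false

namespace Pool.Agent.W849.FL.STA2

open Polynomial Pool.Agent.W500.FL

theorem dvd_set {K : Type} [Field K] (hV : S_V) (H : Finset K[X]) (w : K[X] → K[X])
    (h2 : ∀ h ∈ H, derivative (derivative h) ≠ 0) :
    ∃ V : K[X], V.Monic ∧ 4 ∣ V.natDegree ∧
      (∀ h ∈ H, h ∣ V ∧ derivative h ∣ V ∧ derivative (derivative h) ∣ V) ∧
      (∀ h ∈ H, ∀ k ∈ H, derivative h ≠ derivative k → derivative h - derivative k ∣ V) ∧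
      (∀ h ∈ H, ∀ k ∈ H, w h ≠ w k → w h - w k ∣ V) := by
  classical
  obtain ⟨V, hm, h4, hd⟩ := hV K ((((H ∪ H.image (fun h => derivative h)) ∪
    H.image (fun h => derivative (derivative h))) ∪
    (H ×ˢ H).image (fun q => derivative q.1 - derivative q.2)) ∪
    (H ×ˢ H).image (fun q => w q.1 - w q.2) |>.erase 0) (by
      intro f hf
      exact (Finset.mem_erase.mp hf).1)
  refine ⟨V, hm, h4, ?_, ?_, ?_⟩
  · intro h hh
    have h2h := h2 h hh
    have h1h : derivative h ≠ 0 := by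
      intro h0
      apply h2h
      rw [h0]; simp
    have h0h : h ≠ 0 := by
      intro h0
      apply h1h
      rw [h0]; simp
    refine ⟨hd h ?_, hd _ ?_, hd _ ?_⟩
    · refine Finset.mem_erase.mpr ⟨h0h, ?_⟩
      simp only [Finset.mem_union]
      exact Or.inl (Or.inl (Or.inl (Or.inl hh)))
    · refine Finset.mem_erase.mpr ⟨h1h, ?_⟩
      simp only [Finset.mem_union]
      exact Or.inl (Or.inl (Or.inl (Or.inr
        (Finset.mem_image.mpr ⟨h, hh, rfl⟩))))
    · refine Finset.mem_erase.mpr ⟨h2h, ?_⟩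
      simp only [Finset.mem_union]
      exact Or.inl (Or.inl (Or.inr
        (Finset.mem_image.mpr ⟨h, hh, rfl⟩)))
  · intro h hh k hk hne
    apply hd
    refine Finset.mem_erase.mpr ⟨sub_ne_zero.mpr hne, ?_⟩
    simp only [Finset.mem_union]
    exact Or.inl (Or.inr
      (Finset.mem_image.mpr ⟨(h, k), Finset.mem_product.mpr ⟨hh, hk⟩, rfl⟩))
  · intro h hh k hk hne
    apply hd
    refine Finset.mem_erase.mpr ⟨sub_ne_zero.mpr hne, ?_⟩
    simp only [Finset.mem_union]
    exact Or.inr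
      (Finset.mem_image.mpr ⟨(h, k), Finset.mem_product.mpr ⟨hh, hk⟩, rfl⟩)

/-- The leading coefficient and monic associate are determined. -/
theorem lc_unique {K : Type} [Field K] (d b c : K[X]) (m n : K) (hb : b.Monic) (hc : c.Monic)
    (h1 : d = C m * b) (h2 : d = C n * c) (hd : d ≠ 0) : m = n ∧ b = c ∧ m ≠ 0 := by
  have e1 : d.leadingCoeff = m := by
    rw [h1, leadingCoeff_mul, hb.leadingCoeff, leadingCoeff_C, mul_one]
  have e2 : d.leadingCoeff = n := by
    rw [h2, leadingCoeff_mul, hc.leadingCoeff, leadingCoeff_C, mul_one]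
  have hmn : m = n := by rw [← e1, ← e2]
  have hm0 : m ≠ 0 := by
    rw [← e1]
    exact leadingCoeff_ne_zero.mpr hd
  refine ⟨hmn, ?_, hm0⟩
  have h3 : C m * b = C m * c := by
    rw [← h1, h2, hmn]
  exact mul_left_cancel₀ (by simpa using hm0) h3

theorem main : S_J → S_NT → S_FR → S_R → S_V → S_U → S_DEL → S_STA := by
  intro hJ hNT hFR hR hV hU hDEL K _ _ _ p _ _ hp2 H t h2 ht
  classical
  obtain ⟨w, hw1, hw2, hw3⟩ := hU K p H
  obtain ⟨V, hVm, hV4, hVd, hVdd, hVw⟩ := dvd_set hV H w h2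
  obtain ⟨j1, j2, j3, j4, j5, j6, j7⟩ := hJ K
  have hp : p.Prime := Fact.out
  have hd1 : ∀ h ∈ H, derivative h ≠ 0 := by
    intro h hh h0
    apply h2 h hh
    rw [h0]; simp
  -- the exponent
  obtain ⟨l, hl⟩ : ∃ l : ℕ, l = V.natDegree + ∑ h ∈ H, (w h).natDegree + 1 := ⟨_, rfl⟩
  have hlpos : l ≤ p * (2 * l) := by
    have := hp.pos
    nlinarith
  have hlV : V.natDegree < p * (2 * l) := by omega
  have hlw : ∀ h ∈ H, (w h).natDegree < p * (2 * l) := by
    intro h hh
    have : (w h).natDegree ≤ ∑ h ∈ H, (w h).natDegree :=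
      Finset.single_le_sum (f := fun h => (w h).natDegree) (fun _ _ => Nat.zero_le _) hh
    omega
  obtain ⟨u, hu⟩ : ∃ u : K[X] → K[X], ∀ h, u h = w h + X ^ (p * (2 * l)) := ⟨_, fun _ => rfl⟩
  have hum : ∀ h ∈ H, (u h).Monic ∧ (u h).natDegree = p * (2 * l) := by
    intro h hh
    have hlt : (w h).degree < ((X : K[X]) ^ (p * (2 * l))).degree := by
      rw [degree_X_pow]
      exact lt_of_le_of_lt degree_le_natDegree (by exact_mod_cast hlw h hh)
    constructor
    · rw [hu]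
      exact (monic_X_pow _).add_of_right hlt
    · rw [hu, natDegree_add_eq_right_of_degree_lt hlt, natDegree_X_pow]
  have hud : ∀ h ∈ H, derivative (u h) = 1 := by
    intro h hh
    rw [hu, derivative_add, hw1 h hh, derivative_X_pow]
    have : ((p * (2 * l) : ℕ) : K) = 0 := by
      push_cast
      rw [CharP.cast_eq_zero K p]
      ring
    rw [this]
    simp
  have hsr : ∀ h : K[X], ∃ σ ρ : K[X], h ∈ H → (σ.Monic ∧ ρ.Monic ∧ u h = σ * ρ ∧ σ ∣ V ∧
      IsCoprime ρ V ∧ Squarefree ρ ∧ 0 < ρ.natDegree) := by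
    intro h
    by_cases hh : h ∈ H
    · obtain ⟨σ, ρ, hs⟩ := hR K (u h) V (hum h hh).1 (hud h hh) hVm
        (by rw [(hum h hh).2]; exact hlV)
      exact ⟨σ, ρ, fun _ => hs⟩
    · exact ⟨0, 0, fun h' => absurd h' hh⟩
  choose σ ρ hσρ using hsr
  have hcop : ∀ h ∈ H, ∀ k ∈ H, h ≠ k → IsCoprime (ρ h) (ρ k) := by
    intro h hh k hk hne
    obtain ⟨_, _, e1, _, c1, _, _⟩ := hσρ h hh
    obtain ⟨_, _, e2, _, c2, _, _⟩ := hσρ k hk
    have hdv := hVw h hh k hk (hw3 h hh k hk hne)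
    have c3 : IsCoprime (ρ h) (w h - w k) := c1.of_isCoprime_of_dvd_right hdv
    have c4 : IsCoprime (ρ h) (-(w h - w k) + ρ h * σ h) := (c3.neg_right).add_mul_left_right _
    have e3 : -(w h - w k) + ρ h * σ h = u k := by
      rw [mul_comm (ρ h), ← e1, hu, hu]
      ring
    rw [e3, e2] at c4
    exact c4.of_isCoprime_of_dvd_right (Dvd.intro_left _ rfl)
  -- leading coefficients
  have hmb : ∀ h : K[X], ∃ (m : K) (b : K[X]), h ∈ H →
      (b.Monic ∧ derivative h = C m * b ∧ m ≠ 0) := by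
    intro h
    by_cases hh : h ∈ H
    · refine ⟨(derivative h).leadingCoeff, C ((derivative h).leadingCoeff)⁻¹ * derivative h,
        fun _ => ?_⟩
      have hne : (derivative h).leadingCoeff ≠ 0 := leadingCoeff_ne_zero.mpr (hd1 h hh)
      refine ⟨?_, ?_, hne⟩
      · rw [Monic, leadingCoeff_mul, leadingCoeff_C, inv_mul_cancel₀ hne]
      · rw [← mul_assoc, ← C_mul, mul_inv_cancel₀ hne, C_1, one_mul]
    · exact ⟨0, 0, fun h' => absurd h' hh⟩
  choose m0 b0 hmb0 using hmb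
  have hx : ∀ h : K[X], ∃ x : K[X], h ∈ H →
      jac (ρ h) x = quadraticChar K (m0 h) ^ (σ h).natDegree * t h := by
    intro h
    by_cases hh : h ∈ H
    · obtain ⟨_, r1, _, _, _, r2, r3⟩ := hσρ h hh
      have hq : quadraticChar K (m0 h) ^ (σ h).natDegree * t h = 1 ∨
          quadraticChar K (m0 h) ^ (σ h).natDegree * t h = -1 := by
        have h1 : quadraticChar K (m0 h) = 1 ∨ quadraticChar K (m0 h) = -1 :=
          quadraticChar_dichotomy (hmb0 h hh).2.2
        have h3 : quadraticChar K (m0 h) ^ (σ h).natDegree = 1 ∨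
            quadraticChar K (m0 h) ^ (σ h).natDegree = -1 := by
          rcases h1 with h1 | h1
          · left; rw [h1, one_pow]
          · rw [h1]; exact neg_one_pow_eq_or ℤ _
        rcases h3 with h3 | h3 <;> rcases ht h hh with h4 | h4 <;> rw [h3, h4] <;> norm_num
      obtain ⟨x, hx⟩ := hNT K hp2 (ρ h) r1 r2 r3 _ hq
      exact ⟨x, fun _ => hx⟩
    · exact ⟨0, fun h' => absurd h' hh⟩
  choose x hx using hx
  obtain ⟨Y, hYm, hY4, hYN, hYd⟩ := hFR K p V H ρ (fun h => b0 h * x h - derivative h)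
    (fun h hh => ⟨(hσρ h hh).2.1, (hσρ h hh).2.2.2.2.2.1, (hσρ h hh).2.2.2.2.1⟩) hcop
    (∑ h ∈ H, h.natDegree + 1)
  have hdegA : ∀ h ∈ H, h.natDegree < (V * Y).natDegree := by
    intro h hh
    rw [hVm.natDegree_mul hYm]
    have : h.natDegree ≤ ∑ h ∈ H, h.natDegree :=
      Finset.single_le_sum (f := fun h => h.natDegree) (fun _ _ => Nat.zero_le _) hh
    omega
  refine ⟨V, Y, fun h => w h - h + X ^ (p * (2 * l)), hVm, hYm, hV4, hY4, ?_, hVdd, ?_, ?_⟩
  · intro h hh
    obtain ⟨a1, a2, a3⟩ := hVd h hh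
    exact ⟨a1, a2, a3, hdegA h hh⟩
  · intro h hh k hk he
    show w h - h + X ^ (p * (2 * l)) = w k - k + X ^ (p * (2 * l))
    rw [hw2 h hh k hk he]
  · intro h hh Δ b m hΔm hbm hder hbΔ
    show jac Δ (w h - h + X ^ (p * (2 * l)) + h) = t h
    have hue : w h - h + X ^ (p * (2 * l)) + h = u h := by
      rw [hu]; ring
    rw [hue]
    obtain ⟨s1, r1, e1, s2, r2, r3, r4⟩ := hσρ h hh
    obtain ⟨b1, b2, b3⟩ := hmb0 h hh
    obtain ⟨a1, a2, a3⟩ := hVd h hh
    obtain ⟨q1, q2, q3⟩ := lc_unique (derivative h) b (b0 h) m (m0 h) hbm b1 hder b2 (hd1 h hh)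
    have hxh := hx h hh
    rw [← q1] at hxh
    -- V ∣ Δ - C m
    have hVΔ : V ∣ Δ - C m := by
      obtain ⟨Δ1, b1', m1, z1, z2, z3, z4, z5, z6, _⟩ :=
        (hDEL K p V (V * Y) hVm (hVm.mul hYm) (Dvd.intro _ rfl)).1 (derivative h) (hd1 h hh)
        (h2 h hh) a2 a3 (lt_of_le_of_lt (natDegree_derivative_le h)
          (lt_of_le_of_lt (Nat.sub_le _ _) (hdegA h hh)))
      obtain ⟨y1, y2, y3⟩ := lc_unique (derivative h) b1' b m1 m z2 hbm z3 hder (hd1 h hh)
      subst y1 y2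
      have hΔΔ : Δ1 = Δ := by
        apply mul_left_cancel₀ hbm.ne_zero
        rw [z5, hbΔ]
      rw [← hΔΔ]
      exact z6
    have hρΔ : ρ h ∣ Δ - x h := by
      have hy := hYd h hh
      simp only [← q2] at hy
      have e2 : V ^ p * Y ^ p - (b * x h - derivative h) = b * (Δ - x h) := by
        rw [mul_sub, hbΔ, mul_pow]
        ring
      have hy' : ρ h ∣ b * (Δ - x h) := by
        rw [← e2]
        exact hy
      have hbV : b ∣ V := by
        refine dvd_trans ?_ a2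
        rw [hder]
        exact Dvd.intro_left _ rfl
      exact (r2.of_isCoprime_of_dvd_right hbV).dvd_of_dvd_mul_left hy'
    have hjσ : jac (σ h) Δ = quadraticChar K m ^ (σ h).natDegree := by
      rw [j3 (σ h) Δ (C m) s1 (dvd_trans s2 hVΔ), j4 (σ h) m s1]
    have hjρ : jac (ρ h) Δ = quadraticChar K m ^ (σ h).natDegree * t h := by
      rw [j3 (ρ h) Δ (x h) r1 hρΔ, hxh]
    have hju : jac (u h) Δ = t h := by
      rw [e1, j2 (σ h) (ρ h) Δ s1 r1, hjσ, hjρ, ← mul_assoc, ← pow_add, ← two_mul, pow_mul,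
        quadraticChar_sq_one q3, one_pow, one_mul]
    have hneg : (-1 : K) ≠ 0 := neg_ne_zero.mpr one_ne_zero
    rw [j5 Δ (u h) hΔm (hum h hh).1, hju, (hum h hh).2]
    have e5 : Δ.natDegree * (p * (2 * l)) = 2 * (Δ.natDegree * p * l) := by ring
    rw [e5, pow_mul, quadraticChar_sq_one hneg, one_pow, one_mul]

end Pool.Agent.W849.FL.STA2
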